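import Pool.Agent.helper56.CT.Fin2

/-!
# `c_2` at `q = 2` counts Hamiltonian decompositions

The definitions (graph polynomial, number of zeros, `C2Is`, `decompletion`, `FourRegular`,
`PrimeAncestor`) are in `Pool/Agent/helper56/CT/Problem.lean`; `TwoFactor` and `numDec` are in
`Pool/Agent/helper56/CT/Ham.lean`.
-/

namespace Pool.Agent.helper5.Parked.MP45d809HamDec

open CT

/-- For a 4-regular graph `G` on at least six vertices let `N11` be the number of Hamiltonian
cycles of `G` whose complement is a Hamiltonian cycle, and `N12` the number of Hamiltonian cycles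
whose complement has exactly two components. Then `4` divides `N11` and
`c_2^{(2)}(G - v) ≡ N11 / 4 + N12 (mod 2)` for every vertex `v`. Hence for a prime ancestor
other than `K_5` with `c_2^{(2)} = -1` the number `N11 / 4 + N12` is odd. -/
theorem result :
    (∀ (V : Type) [Fintype V] [DecidableEq V] (G : SimpleGraph V),
      FourRegular G → 6 ≤ Fintype.card V → ∀ v : V, 4 ∣ numDec G 1 1 ∧
        C2Is (decompletion G v) (ZMod 2) ((numDec G 1 1 / 4 + numDec G 1 2 : ℕ) : ℤ)) ∧
    (∀ (V : Type) [Fintype V] [DecidableEq V] (G : SimpleGraph V), PrimeAncestor G → ∀ v : V,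
      C2Is (decompletion G v) (ZMod 2) (-1) →
        Nonempty (G ≃g (⊤ : SimpleGraph (Fin 5))) ∨ Odd (numDec G 1 1 / 4 + numDec G 1 2)) :=
  ⟨fun _ _ _ G hG hn v => fin_ham G hG hn v, fun _ _ _ G hG v h => fin_ham_prime G hG v h⟩

end Pool.Agent.helper5.Parked.MP45d809HamDec
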