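import Pool.Agent.helper56.CT.Fin1

/-!
# `c_2` at `q = 2` vanishes for 4-regular graphs with two vertices with the same neighbours

The definitions (graph polynomial, number of zeros, `C2Is`, `decompletion`, `FourRegular`,
`PrimeAncestor`, `HasTwins`) are in `Pool/Agent/helper56/CT/Problem.lean`.
-/

namespace Pool.Agent.helper5.Parked.MP45d809Twins

open CT

/-- For every 4-regular graph `G` on at least seven vertices with two different vertices with the
same neighbours and every vertex `v`: `c_2^{(2)}(G - v) = 0`. In particular no prime ancestor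
with two such vertices satisfies `c_2^{(2)} = -1`. -/
theorem result :
    (∀ (V : Type) [Fintype V] [DecidableEq V] (G : SimpleGraph V),
      FourRegular G → 7 ≤ Fintype.card V → HasTwins G → ∀ v : V,
        C2Is (decompletion G v) (ZMod 2) 0 ∧ ¬ C2Is (decompletion G v) (ZMod 2) (-1)) ∧
    (∀ (V : Type) [Fintype V] [DecidableEq V] (G : SimpleGraph V), PrimeAncestor G →
      HasTwins G → ∀ v : V, ¬ C2Is (decompletion G v) (ZMod 2) (-1)) :=
  ⟨fun _ _ _ G hG hn h v => fin_twins G hG hn h v,
    fun _ _ _ G hG h v => fin_twins_prime G hG h v⟩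

end Pool.Agent.helper5.Parked.MP45d809Twins
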